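import Mathlib
import Pool.Agent.H325.T
import Pool.Agent.H325.Q
import Pool.Graph.R_seed8.H15R2.Burn
import Pool.Graph.R_seed8.H848.PS.Main

/-!
# `MP_544bd1_al`: elements of order three all of whose commutators have order three

Main step: if `a ^ 3 = 1` and `[a, g] ^ 3 = 1` for all `g` in the normal closure of `a`, then the
normal closure of `a` is a locally finite `3`-group.  Modulo the locally finite `3`-radical this can
be iterated: if `a` is not in the radical then `a` starts an infinite chain `a₀, a₁, …` of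
nontrivial elements in which `aₙ₊₁` is `aₙ ^ 3` or `[aₙ, g] ^ 3` with `g` in the normal closure
of `aₙ`.

Consequences for all groups: if `3` does not divide `m`, then the commutators `[x ^ m, y]` whose
order divides `3` or `9` are again `m`-th powers.  So the laws `[x ^ m, y] ^ 3 = 1` etc. put them into
the radical, and modulo the radical the `m`-th powers are central; by the theorem of Schur the derived
subgroup is locally finite.  For `m = 1, 2, 3, 4, 6` this needs only the theorems of Burnside, Sanov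
and M. Hall on the exponents `3`, `4` and `6`.

Idea of the proof.  The cubes `(x y) ^ 3` of the products of two conjugates of `a` are left
`3`-Engel elements of order dividing three.  Left `3`-Engel elements of order three lie in the
radical: for the system `X` of all iterated commutators of their conjugates consider the additive
functions on `X`, `f (s ^ t) = f s + f [s, t]`; the elements of `X` act quadratically on them,
so finitely generated subgroups act nilpotently by the theorem of Kostrikin and Zelmanov, and the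
functions `s ↦ [s, y]` are additive.
-/

set_option autoImplicit false

namespace Pool.Agent.Results.MP_544bd1_al.ChainsOfCubes

open Pool.Agent.H325
open Pool.Agent.R669 (Sw.k Sw.cj)
open Pool.Agent.R669.Sw
open Pool.Agent.W5h59.Bu (LFn)

universe u

/-- locally finite groups -/
def LocFin (G : Type u) [Group G] : Prop := ∀ S : Set G, S.Finite → Finite (Subgroup.closure S)

/-- infinite chains of nontrivial elements: each element is the cube of the preceding one, or the
cube of a commutator of the preceding one with an element of its normal closure -/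
def Chain {G : Type u} [Group G] (f : ℕ → G) : Prop :=
  ∀ n, f n ≠ 1 ∧ (f (n + 1) = f n ^ 3 ∨
    ∃ g ∈ Subgroup.normalClosure {f n}, f (n + 1) = ((f n)⁻¹ * g⁻¹ * f n * g) ^ 3)

variable {G : Type u} [Group G]

theorem lfn_of_finset
    (h : ∀ S : Finset G, ((Subgroup.closure (S : Set G) : Subgroup G) : Set G).Finite) :
    LFn G := by
  intro S hS
  have := h hS.toFinset
  rw [hS.coe_toFinset] at this
  exact this.to_subtype

theorem fin_of_fg (hG : Group.FG G) (h : LFn G) : Finite G := by
  obtain ⟨S, hS⟩ := Group.fg_def.1 hG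
  have h1 := h (S : Set G) S.finite_toSet
  rw [hS] at h1
  exact Finite.of_equiv _ (Subgroup.topEquiv : (⊤ : Subgroup G) ≃* G).toEquiv

/-- finite `3`-groups have no chains -/
theorem fin_no_chain [Finite G] {r : ℕ} (h : ∀ x : G, x ^ 3 ^ r = 1) (f : ℕ → G) : ¬ Chain f := by
  have hp : IsPGroup 3 G := fun x => ⟨r, h x⟩
  have : Fact (Nat.Prime 3) := ⟨Nat.prime_three⟩
  have hn : Group.IsNilpotent G := hp.isNilpotent
  obtain ⟨c, hc⟩ := Subgroup.nilpotent_iff_lowerCentralSeries.1 hn
  exact no_chain h hc f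

/-- finitely generated groups of exponent `3 ^ r` -/
theorem crit {r : ℕ} (hG : Group.FG G) (h : ∀ x : G, x ^ 3 ^ r = 1) :
    Finite G ↔ ¬ ∃ f : ℕ → G, Chain f := by
  constructor
  · rintro hf ⟨f, hc⟩
    exact fin_no_chain h f hc
  · intro hc
    exact fin_of_fg hG (lf3_of_no_chain (fun f hf => hc ⟨f, hf⟩)).1

/-- from `m` to `3 m` -/
theorem step {m : ℕ} (hm : ∀ (K : Type u) [Group K], (∀ x : K, x ^ m = 1) → LocFin K)
    (h : ∀ (f : ℕ → G) (x : G), f 0 = x ^ m → ¬ Chain f) : LocFin G := by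
  refine lfn_of_rad (m := m) ?_ hm
  intro x
  by_contra hx
  obtain ⟨f, h0, hf⟩ := exists_chain hx
  exact h f x h0 hf

theorem three (K : Type u) [Group K] (h : ∀ x : K, x ^ 3 = 1) : LocFin K :=
  lfn_of_finset (fun S => H15.Burn.fin3 h S)

theorem four (K : Type u) [Group K] (h : ∀ x : K, x ^ 4 = 1) : LocFin K :=
  lfn_of_finset (fun S => H15.Burn.fin4 h S)

/-- periodic groups: every element has finite order -/
def Periodic (G : Type u) [Group G] : Prop := ∀ x : G, ∃ n : ℕ, 0 < n ∧ x ^ n = 1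

theorem two (K : Type u) [Group K] (h : ∀ x : K, x ^ 2 = 1) : LocFin K := by
  refine Pool.Agent.H155.CT.lfn_of_comm (fun x y => ?_) (fun x => ⟨2, by norm_num, h x⟩)
  have h1 : ∀ x : K, x⁻¹ = x := fun x => by
    rw [inv_eq_iff_mul_eq_one, ← pow_two]
    exact h x
  calc x * y = (x * y)⁻¹ := (h1 _).symm
    _ = y⁻¹ * x⁻¹ := mul_inv_rev x y
    _ = y * x := by rw [h1, h1]

theorem one (K : Type u) [Group K] (h : ∀ x : K, x ^ 1 = 1) : LocFin K :=
  two K (fun x => by rw [pow_succ, h, one_mul, ← pow_one x, h])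

theorem six (K : Type u) [Group K] (h : ∀ x : K, x ^ 6 = 1) : LocFin K := by
  intro S hS
  refine H848.PS.lf6 _ ?_ ?_
  · rw [Group.fg_iff_subgroup_fg]
    exact (Subgroup.fg_iff _).2 ⟨S, rfl, hS⟩
  · rintro ⟨x, hx⟩
    exact Subtype.ext (h x)

theorem good {m : ℕ} (hm : m = 1 ∨ m = 2 ∨ m = 3 ∨ m = 4 ∨ m = 6 ∨
    ∀ (K : Type u) [Group K], (∀ x : K, x ^ m = 1) → LocFin K) :
    ∀ (K : Type u) [Group K], (∀ x : K, x ^ m = 1) → LocFin K := by
  rcases hm with rfl | rfl | rfl | rfl | rfl | hm
  · exact one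
  · exact two
  · exact three
  · exact four
  · exact six
  · exact hm

/-- the laws `[x ^ m, y] ^ 9 = 1` and `[… [[x ^ m, y₁] ^ 3, y₂] ^ 3, …, yₙ] ^ 3 = 1` -/
def Laws (m n : ℕ) (G : Type u) [Group G] : Prop :=
  (∀ x y : G, ((x ^ m)⁻¹ * y⁻¹ * x ^ m * y) ^ 9 = 1) ∧
    ∀ (x : G) (l : List G), l.length = n →
      l.foldl (fun a y => (a⁻¹ * y⁻¹ * a * y) ^ 3) (x ^ m) = 1

/-- **Theorem.** -/
theorem result :
    -- (1) an element which starts no infinite chain has a locally finite normal closure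
    (∀ (G : Type u) [Group G] (a : G), (¬ ∃ f : ℕ → G, f 0 = a ∧ Chain f) →
      ∀ S : Set G, S.Finite → S ⊆ Subgroup.normalClosure {a} →
        Finite (Subgroup.closure S) ∧ ∀ x ∈ Subgroup.closure S, ∃ n : ℕ, x ^ 3 ^ n = 1) ∧
    -- (2) a criterion for the exponents `3 ^ r`
    (∀ (r : ℕ) (G : Type u) [Group G], Group.FG G → (∀ x : G, x ^ 3 ^ r = 1) →
      (Finite G ↔ ¬ ∃ f : ℕ → G, Chain f)) ∧
    (∀ r : ℕ, (∀ (G : Type u) [Group G], (∀ x : G, x ^ 3 ^ r = 1) → LocFin G) ↔
      ∀ (G : Type u) [Group G], Group.FG G → (∀ x : G, x ^ 3 ^ r = 1) →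
        ¬ ∃ f : ℕ → G, Chain f) ∧
    -- (3) `m = 1, 2, 3, 4, 6`, or any `m` such that all groups with `x ^ m = 1` are locally
    -- finite; `G` is any group
    (∀ m : ℕ, (m = 1 ∨ m = 2 ∨ m = 3 ∨ m = 4 ∨ m = 6 ∨
        ∀ (K : Type u) [Group K], (∀ x : K, x ^ m = 1) → LocFin K) →
      ∀ (G : Type u) [Group G],
        -- (a) no `m`-th power starts a chain
        ((¬ ∃ (f : ℕ → G) (x : G), f 0 = x ^ m ∧ Chain f) → LocFin G) ∧
        -- (b) no commutator with an `m`-th power starts a chain; laws, if `3` does not divide `m`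
        (((¬ ∃ (f : ℕ → G) (x y : G), f 0 = (x ^ m)⁻¹ * y⁻¹ * x ^ m * y ∧ Chain f) ∨
            (¬ 3 ∣ m ∧ ∀ x y : G, ((x ^ m)⁻¹ * y⁻¹ * x ^ m * y) ^ 3 = 1) ∨
            (¬ 3 ∣ m ∧ ∃ n, Laws m n G)) →
          LocFin (commutator G) ∧ (Periodic G → LocFin G)) ∧
        -- (c) commutators with elements of the normal closure
        (((∀ x : G, ∃ r : ℕ, x ^ (m * 3 ^ r) = 1) ∨ (¬ 3 ∣ m ∧ Periodic G)) →
          (∀ x : G, ∀ y ∈ Subgroup.normalClosure {x ^ m},
            ((x ^ m)⁻¹ * y⁻¹ * x ^ m * y) ^ 3 = 1) → LocFin G) ∧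
        -- (d) all orders divide `m * 3 ^ r` with some `r`
        ((∀ x : G, ∃ r : ℕ, x ^ (m * 3 ^ r) = 1) → ¬ 9 ∣ m → (∃ n, Laws m n G) → LocFin G)) := by
  refine ⟨?_, ?_, ?_, ?_⟩
  · intro G _ a ha S hS hSa
    have h1 : a ∈ rad G := by
      by_contra h
      obtain ⟨f, h0, hf⟩ := exists_chain h
      exact ha ⟨f, h0, hf⟩
    have h2 : Subgroup.normalClosure {a} ≤ rad G :=
      Subgroup.normalClosure_le_normal (Set.singleton_subset_iff.2 h1)
    refine ⟨(rad_lf G).1.fin hS (hSa.trans h2), ?_⟩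
    intro x hx
    have hx' : x ∈ rad G := (Subgroup.closure_le (rad G)).2 (hSa.trans h2) hx
    obtain ⟨n, hn⟩ := (rad_lf G).2 ⟨x, hx'⟩
    refine ⟨n, ?_⟩
    have := congrArg Subtype.val hn
    simpa using this
  · intro r G _ hG h
    exact crit hG h
  · intro r
    constructor
    · intro H G _ hG h
      exact (crit hG h).1 (fin_of_fg hG (H G h))
    · intro H G _ h S hS
      have h1 : ∀ x : Subgroup.closure S, x ^ 3 ^ r = 1 := by
        rintro ⟨x, hx⟩
        exact Subtype.ext (h x)
      have h2 : Group.FG (Subgroup.closure S) := by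
        rw [Group.fg_iff_subgroup_fg]
        exact (Subgroup.fg_iff _).2 ⟨S, rfl, hS⟩
      exact (crit h2 h1).2 (H _ h2 h1)
  · intro m hm G _
    have hm' := good hm
    refine ⟨?_, ?_, ?_, ?_⟩
    · intro hc
      exact step hm' (fun f x h0 hf => hc ⟨f, x, h0, hf⟩)
    · intro h
      refine P.both (m := m) ?_ hm'
      rcases h with hc | ⟨h3, h⟩ | ⟨h3, n, h9, hW⟩
      · intro x y
        by_contra hx
        obtain ⟨f, h0, hf⟩ := exists_chain hx
        exact hc ⟨f, x, y, h0, hf⟩
      · exact P.mem_rad_three h3 h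
      · exact P.mem_rad_nine h3 h9 hW
    · intro hp h
      exact P.case_three h hp hm'
    · rintro hp hm9 ⟨n, h9, hW⟩
      exact P.case_nine hm9 h9 hW (Or.inl hp) hm'

end Pool.Agent.Results.MP_544bd1_al.ChainsOfCubes
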