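import Mathlib
import Pool.Agent.H392.OC.P
import Pool.Agent.H392.OC.Q
import Pool.Agent.H392.OC.W
import Pool.Agent.H392.OC.R
import Pool.Graph.R_seed8.H15R2.Burn
import Pool.Graph.R_seed8.H848.PS.Main

/-!
# `MP_544bd1_al`: chains and finite soluble groups

Let `G` be an arbitrary group and `R` the largest normal subgroup of `G` which is locally finite and
all of whose finite subgroups are soluble.  An element `a` outside of `R` starts an infinite chain of
nontrivial elements, in which each element `b` is obtained from the preceding element `a` in one of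
the following ways: `b = a ^ p` for a prime divisor `p` of the order of `a`; or the order of `a` is a
power of an odd prime and `b = [g, a, a, a]`; or the order of `a` is a power of two and
`b = (a a ^ g) ^ 4` or `b = ((a a ^ g) ^ 2 (a a ^ h) ^ 2) ^ 2`; here `g` and `h` are in the normal
closure of `a`.  So a finitely generated group is finite and soluble if and only if it has no infinite
chain.  The theorem applies this to the groups of exponent `n`.

Indeed, if all these elements `b` are in `R`, then the image of `a` in `G / R` is a left `3`-Engel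
element of odd prime order in its normal closure, or a strongly left `3`-Engel element of order two
there, and `a` is in `R` by the theorems of Jabara and Traustason, respectively of Hadjievangelou and
Traustason.

Odd exponents `ν`: the iterated commutators of the conjugates of a left `3`-Engel element of odd
order form a sandwich system `X`; its elements act quadratically on the additive functions on `X`
(`f (s ^ t) = f s + f [s, t]`), so that finitely generated subgroups act nilpotently by the theorem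
of Kostrikin and Zelmanov, and the functions `s ↦ [s, y]` are additive.  (Adapted from the proof for
elements of order three by helper325, `Pool/Agent/H325`; order two: helper678, `Pool/Agent/H678/Inv`.)
-/

set_option autoImplicit false

namespace Pool.Agent.Results.MP_544bd1_al.EngelChains

open Pool.Agent.H392.OC
open Pool.Agent.W5h59.Bu (LFn)

universe u

/-- locally finite groups -/
def LocFin (G : Type u) [Group G] : Prop := ∀ S : Set G, S.Finite → Finite (Subgroup.closure S)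

/-- groups in which every finite subset generates a finite soluble group -/
def LocFinSol (G : Type u) [Group G] : Prop :=
  ∀ S : Set G, S.Finite → Finite (Subgroup.closure S) ∧ Group.IsSolvable (Subgroup.closure S)

/-- the commutator `[x, y] = x⁻¹ y⁻¹ x y` -/
def com {G : Type u} [Group G] (x y : G) : G := x⁻¹ * y⁻¹ * x * y

/-- the commutator `[g, a, a, a]` -/
def eng {G : Type u} [Group G] (g a : G) : G := com (com (com g a) a) a

/-- one step of a chain, from `a` to `b`: `b = a ^ p` for a prime divisor `p` of the order of `a`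
(all primes divide the order `0` of an element of infinite order); or the order of `a` is a power of
an odd prime and `b = [g, a, a, a]`; or the order of `a` is a power of two and `b = (a a ^ g) ^ 4` or
`b = ((a a ^ g) ^ 2 (a a ^ h) ^ 2) ^ 2`; here `g` and `h` are in the normal closure of `a` -/
def Step {G : Type u} [Group G] (a b : G) : Prop :=
  (∃ p : ℕ, p.Prime ∧ p ∣ orderOf a ∧ b = a ^ p) ∨
  (∃ p k : ℕ, p.Prime ∧ p ≠ 2 ∧ orderOf a = p ^ k ∧
    ∃ g ∈ Subgroup.normalClosure {a}, b = eng g a) ∨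
  ∃ k : ℕ, orderOf a = 2 ^ k ∧
    ((∃ g ∈ Subgroup.normalClosure {a}, b = (a * (g⁻¹ * a * g)) ^ 4) ∨
    ∃ g ∈ Subgroup.normalClosure {a}, ∃ h ∈ Subgroup.normalClosure {a},
      b = ((a * (g⁻¹ * a * g)) ^ 2 * (a * (h⁻¹ * a * h)) ^ 2) ^ 2)

/-- infinite chains of nontrivial elements -/
def Chain {G : Type u} [Group G] (f : ℕ → G) : Prop := ∀ n, f n ≠ 1 ∧ Step (f n) (f (n + 1))

/-- infinite chains of nontrivial commutators: each element is a commutator `[g, a, a, a]`, where `a` is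
the preceding element and `g` is in the normal closure of `a` -/
def EngelChain {G : Type u} [Group G] (f : ℕ → G) : Prop :=
  ∀ n, f n ≠ 1 ∧ ∃ g ∈ Subgroup.normalClosure {f n}, f (n + 1) = eng g (f n)

section

variable {G : Type u} [Group G] {ν : ℕ}

theorem EngelChain.chain {f : ℕ → G} (h : EngelChain f) : Ch ν f :=
  fun n => ⟨(h n).1, Or.inr (h n).2⟩

theorem chain_engel (h : ∀ x : G, x ^ ν = 1) {f : ℕ → G} (hf : Ch ν f) : EngelChain f := by
  intro n
  refine ⟨(hf n).1, ?_⟩
  rcases (hf n).2 with h1 | h1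
  · exact absurd (h1.trans (h _)) (hf (n + 1)).1
  · exact h1

theorem lfn_of_finset
    (h : ∀ S : Finset G, ((Subgroup.closure (S : Set G) : Subgroup G) : Set G).Finite) :
    LFn G := by
  intro S hS
  have := h hS.toFinset
  rw [hS.coe_toFinset] at this
  exact this.to_subtype

theorem fg_closure {S : Set G} (hS : S.Finite) : Group.FG (Subgroup.closure S) := by
  rw [Group.fg_iff_subgroup_fg]
  exact (Subgroup.fg_iff _).2 ⟨S, rfl, hS⟩

theorem fin_of_fg (hG : Group.FG G) (h : LFn G) : Finite G := by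
  obtain ⟨S, hS⟩ := Group.fg_def.1 hG
  have h1 := h (S : Set G) S.finite_toSet
  rw [hS] at h1
  exact Finite.of_equiv _ (Subgroup.topEquiv : (⊤ : Subgroup G) ≃* G).toEquiv

theorem sol_of_finite [Finite G] (h : LS G) : Group.IsSolvable G := by
  have h1 : Group.IsSolvable (⊤ : Subgroup G) := h.2 ⊤ inferInstance
  exact Group.isSolvable_of_surjective
    (f := (Subgroup.topEquiv : (⊤ : Subgroup G) ≃* G).toMonoidHom)
    (Subgroup.topEquiv : (⊤ : Subgroup G) ≃* G).surjective

theorem fs_of_fg (hG : Group.FG G) (h : LS G) : Finite G ∧ Group.IsSolvable G := by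
  haveI := fin_of_fg hG h.1
  exact ⟨inferInstance, sol_of_finite h⟩

/-- finitely generated groups -/
theorem crit (hG : Group.FG G) : (Finite G ∧ Group.IsSolvable G) ↔ ¬ ∃ f : ℕ → G, Chain f := by
  constructor
  · rintro ⟨hf, hs⟩ ⟨f, hf⟩
    obtain ⟨s, hs'⟩ := (Group.isSolvable_def G).1 hs
    exact no_mc (fun x => (orderOf_pos x).ne') hs' f hf
  · intro hc
    exact fs_of_fg hG (ls_of_no_mc (fun f hf => hc ⟨f, hf⟩))

/-- finitely generated groups of odd exponent -/
theorem crit_odd (hν : Odd ν) (hG : Group.FG G) (h : ∀ x : G, x ^ ν = 1) :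
    (Finite G ∧ Group.IsSolvable G) ↔ ¬ ∃ f : ℕ → G, EngelChain f := by
  haveI : Fact (Odd ν) := ⟨hν⟩
  constructor
  · rintro ⟨-, hs⟩ ⟨f, hf⟩
    obtain ⟨s, hs'⟩ := (Group.isSolvable_def G).1 hs
    exact no_chain (r := 1) (ν := ν) (fun x => by rw [pow_one]; exact h x) hs' f hf.chain
  · intro hc
    have hc' : ∀ f : ℕ → G, ¬ Ch ν f := fun f hf => hc ⟨f, chain_engel h hf⟩
    have hfin : Finite G := fin_of_fg hG (lf_of_no_chain hc').1
    exact ⟨hfin, solv (Nat.card G) G le_rfl hc'⟩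

theorem pow_closure {n : ℕ} (h : ∀ x : G, x ^ n = 1) (S : Set G) :
    ∀ x : Subgroup.closure S, x ^ n = 1 := by
  rintro ⟨x, hx⟩
  exact Subtype.ext (h x)

theorem pow_quot {n : ℕ} (h : ∀ x : G, x ^ n = 1) (N : Subgroup G) [N.Normal] :
    ∀ x : G ⧸ N, x ^ n = 1 := by
  intro x
  obtain ⟨x, rfl⟩ := QuotientGroup.mk'_surjective _ x
  rw [← map_pow, h, map_one]

/-- finitely generated groups of exponent `n`, if nontrivial such groups have good elements -/
theorem ls_of_elt {n : ℕ} (H : ∀ (G : Type u) [Group G], Group.FG G → (∀ x : G, x ^ n = 1) →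
    Nontrivial G → ∃ a : G, a ≠ 1 ∧ ¬ ∃ f : ℕ → G, f 0 = a ∧ Chain f)
    (hG : Group.FG G) (h : ∀ x : G, x ^ n = 1) : LS G := by
  have hQ : Group.FG (G ⧸ sr G) := Group.fg_of_surjective (QuotientGroup.mk'_surjective (sr G))
  have h1 : ¬ Nontrivial (G ⧸ sr G) := by
    intro hn
    obtain ⟨a, ha, hc⟩ := H (G ⧸ sr G) hQ (pow_quot h _) hn
    have h2 : a ∈ sr (G ⧸ sr G) := by
      by_contra hx
      obtain ⟨f, h0, hf⟩ := exists_mc hx
      exact hc ⟨f, h0, hf⟩
    rw [sr_quot, Subgroup.mem_bot] at h2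
    exact ha h2
  rw [not_nontrivial_iff_subsingleton] at h1
  have h2 : sr G = ⊤ := by
    rw [eq_top_iff]
    intro x _
    rw [← QuotientGroup.eq_one_iff]
    exact Subsingleton.elim _ _
  have h3 := sr_ls G
  rw [h2] at h3
  exact h3.image (Subgroup.topEquiv : (⊤ : Subgroup G) ≃* G).toMonoidHom
    (Subgroup.topEquiv : (⊤ : Subgroup G) ≃* G).surjective

theorem lf0_of_lfn {M : Subgroup G} (h : LFn M) : LF 0 M := ⟨h, fun x => ⟨1, by simp⟩⟩

theorem sr_le_rad0 : sr G ≤ rad 0 G := le_rad inferInstance (lf0_of_lfn (sr_ls G).1)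

theorem rad_le_rad0 : rad ν G ≤ rad 0 G := le_rad inferInstance (lf0_of_lfn (rad_lf ν G).1)

/-- the quotient of an infinite finitely generated group by the locally finite radical -/
theorem infinite_quot (hG : Group.FG G) (hi : Infinite G) : Infinite (G ⧸ rad 0 G) := by
  by_contra hn
  rw [not_infinite_iff_finite] at hn
  have h1 : LFn G := by
    refine LFn.ext (rad 0 G) (rad_lf 0 G).1 ?_
    intro S hS
    infer_instance
  have := fin_of_fg hG h1
  exact not_finite G

/-- finitely generated groups of exponent `n`, if the infinite ones have good elements -/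
theorem finite_of_elt {n : ℕ} (H : ∀ (G : Type u) [Group G], Group.FG G → (∀ x : G, x ^ n = 1) →
    Infinite G → ∃ a : G, a ≠ 1 ∧ ¬ ∃ f : ℕ → G, f 0 = a ∧ Chain f)
    (hG : Group.FG G) (h : ∀ x : G, x ^ n = 1) : Finite G := by
  by_contra hn
  rw [not_finite_iff_infinite] at hn
  have hQ : Group.FG (G ⧸ rad 0 G) := Group.fg_of_surjective (QuotientGroup.mk'_surjective (rad 0 G))
  obtain ⟨a, ha, hc⟩ := H (G ⧸ rad 0 G) hQ (pow_quot h _) (infinite_quot hG hn)
  have h2 : a ∈ sr (G ⧸ rad 0 G) := by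
    by_contra hx
    obtain ⟨f, h0, hf⟩ := exists_mc hx
    exact hc ⟨f, h0, hf⟩
  have h3 := sr_le_rad0 h2
  rw [rad_quot, Subgroup.mem_bot] at h3
  exact ha h3

/-- the same for odd exponents -/
theorem finite_of_elt_odd (hν : Odd ν) (H : ∀ (G : Type u) [Group G], Group.FG G →
    (∀ x : G, x ^ ν = 1) → Infinite G → ∃ a : G, a ≠ 1 ∧ ¬ ∃ f : ℕ → G, f 0 = a ∧ EngelChain f)
    (hG : Group.FG G) (h : ∀ x : G, x ^ ν = 1) : Finite G := by
  haveI : Fact (Odd ν) := ⟨hν⟩
  by_contra hn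
  rw [not_finite_iff_infinite] at hn
  have hQ : Group.FG (G ⧸ rad 0 G) := Group.fg_of_surjective (QuotientGroup.mk'_surjective (rad 0 G))
  obtain ⟨a, ha, hc⟩ := H (G ⧸ rad 0 G) hQ (pow_quot h _) (infinite_quot hG hn)
  have h2 : a ∈ rad ν (G ⧸ rad 0 G) := by
    by_contra hx
    obtain ⟨f, h0, hf⟩ := exists_chain hx
    exact hc ⟨f, h0, chain_engel (pow_quot h _) hf⟩
  have h3 := rad_le_rad0 h2
  rw [rad_quot, Subgroup.mem_bot] at h3
  exact ha h3

/-- the same for odd exponents -/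
theorem lf_of_elt (hν : Odd ν) (H : ∀ (G : Type u) [Group G], Group.FG G → (∀ x : G, x ^ ν = 1) →
    Nontrivial G → ∃ a : G, a ≠ 1 ∧ ¬ ∃ f : ℕ → G, f 0 = a ∧ EngelChain f)
    (hG : Group.FG G) (h : ∀ x : G, x ^ ν = 1) : Finite G := by
  haveI : Fact (Odd ν) := ⟨hν⟩
  have hQ : Group.FG (G ⧸ rad ν G) := Group.fg_of_surjective (QuotientGroup.mk'_surjective (rad ν G))
  have h1 : ¬ Nontrivial (G ⧸ rad ν G) := by
    intro hn
    obtain ⟨a, ha, hc⟩ := H (G ⧸ rad ν G) hQ (pow_quot h _) hn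
    have h2 : a ∈ rad ν (G ⧸ rad ν G) := by
      by_contra hx
      obtain ⟨f, h0, hf⟩ := exists_chain hx
      exact hc ⟨f, h0, chain_engel (pow_quot h _) hf⟩
    rw [rad_quot, Subgroup.mem_bot] at h2
    exact ha h2
  rw [not_nontrivial_iff_subsingleton] at h1
  have h2 : rad ν G = ⊤ := by
    rw [eq_top_iff]
    intro x _
    rw [← QuotientGroup.eq_one_iff]
    exact Subsingleton.elim _ _
  have h3 := rad_lf ν G
  rw [h2] at h3
  exact fin_of_fg hG (h3.image (Subgroup.topEquiv : (⊤ : Subgroup G) ≃* G).toMonoidHom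
    (Subgroup.topEquiv : (⊤ : Subgroup G) ≃* G).surjective).1

theorem card_pq {p q a b : ℕ} (hp : p.Prime) (hq : q.Prime) :
    (p ^ a * q ^ b).primeFactors.card ≤ 2 := by
  have h : (p ^ a * q ^ b).primeFactors ⊆ {p, q} := by
    intro r hr
    have h1 := Nat.prime_of_mem_primeFactors hr
    have h2 := Nat.dvd_of_mem_primeFactors hr
    rw [h1.dvd_mul] at h2
    rw [Finset.mem_insert, Finset.mem_singleton]
    rcases h2 with h2 | h2
    · exact Or.inl ((Nat.prime_dvd_prime_iff_eq h1 hp).1 (h1.dvd_of_dvd_pow h2))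
    · exact Or.inr ((Nat.prime_dvd_prime_iff_eq h1 hq).1 (h1.dvd_of_dvd_pow h2))
  exact (Finset.card_le_card h).trans Finset.card_le_two

/-- groups generated by `d` elements -/
def Gen (d : ℕ) (G : Type u) [Group G] : Prop :=
  ∃ y : Fin d → G, Subgroup.closure (Set.range y) = ⊤

theorem Gen.fg {d : ℕ} (h : Gen d G) : Group.FG G := by
  obtain ⟨y, hy⟩ := h
  exact Group.fg_iff.2 ⟨_, hy, Set.finite_range y⟩

theorem Gen.quot {d : ℕ} (h : Gen d G) (N : Subgroup G) [N.Normal] : Gen d (G ⧸ N) := by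
  obtain ⟨y, hy⟩ := h
  refine ⟨fun i => QuotientGroup.mk' N (y i), ?_⟩
  have h : Set.range (fun i => QuotientGroup.mk' N (y i)) = QuotientGroup.mk' N '' Set.range y := by
    rw [← Set.range_comp]
    rfl
  rw [h, ← MonoidHom.map_closure, hy,
    Subgroup.map_top_of_surjective _ (QuotientGroup.mk'_surjective N)]

/-- groups generated by `d` elements of exponent `n`, if nontrivial such groups have good elements -/
theorem finite_of_elt_d {n d : ℕ} (H : ∀ (G : Type u) [Group G], Gen d G → (∀ x : G, x ^ n = 1) →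
    Nontrivial G → ∃ a : G, a ≠ 1 ∧ ¬ ∃ f : ℕ → G, f 0 = a ∧ Chain f)
    (hG : Gen d G) (h : ∀ x : G, x ^ n = 1) : Finite G := by
  have h1 : ¬ Nontrivial (G ⧸ sr G) := by
    intro hn
    obtain ⟨a, ha, hc⟩ := H (G ⧸ sr G) (hG.quot _) (pow_quot h _) hn
    have h2 : a ∈ sr (G ⧸ sr G) := by
      by_contra hx
      obtain ⟨f, h0, hf⟩ := exists_mc hx
      exact hc ⟨f, h0, hf⟩
    rw [sr_quot, Subgroup.mem_bot] at h2
    exact ha h2
  rw [not_nontrivial_iff_subsingleton] at h1
  have h2 : sr G = ⊤ := by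
    rw [eq_top_iff]
    intro x _
    rw [← QuotientGroup.eq_one_iff]
    exact Subsingleton.elim _ _
  have h3 := sr_ls G
  rw [h2] at h3
  exact fin_of_fg hG.fg (h3.image (Subgroup.topEquiv : (⊤ : Subgroup G) ≃* G).toMonoidHom
    (Subgroup.topEquiv : (⊤ : Subgroup G) ≃* G).surjective).1

/-- the same for odd exponents -/
theorem finite_of_elt_d_odd {d : ℕ} (hν : Odd ν) (H : ∀ (G : Type u) [Group G], Gen d G →
    (∀ x : G, x ^ ν = 1) → Nontrivial G → ∃ a : G, a ≠ 1 ∧ ¬ ∃ f : ℕ → G, f 0 = a ∧ EngelChain f)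
    (hG : Gen d G) (h : ∀ x : G, x ^ ν = 1) : Finite G := by
  haveI : Fact (Odd ν) := ⟨hν⟩
  have h1 : ¬ Nontrivial (G ⧸ rad ν G) := by
    intro hn
    obtain ⟨a, ha, hc⟩ := H (G ⧸ rad ν G) (hG.quot _) (pow_quot h _) hn
    have h2 : a ∈ rad ν (G ⧸ rad ν G) := by
      by_contra hx
      obtain ⟨f, h0, hf⟩ := exists_chain hx
      exact hc ⟨f, h0, chain_engel (pow_quot h _) hf⟩
    rw [rad_quot, Subgroup.mem_bot] at h2
    exact ha h2
  rw [not_nontrivial_iff_subsingleton] at h1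
  have h2 : rad ν G = ⊤ := by
    rw [eq_top_iff]
    intro x _
    rw [← QuotientGroup.eq_one_iff]
    exact Subsingleton.elim _ _
  have h3 := rad_lf ν G
  rw [h2] at h3
  exact fin_of_fg hG.fg (h3.image (Subgroup.topEquiv : (⊤ : Subgroup G) ≃* G).toMonoidHom
    (Subgroup.topEquiv : (⊤ : Subgroup G) ≃* G).surjective).1

theorem one (K : Type u) [Group K] (h : ∀ x : K, x ^ 1 = 1) : LocFin K := by
  have h1 : ∀ x : K, x = 1 := fun x => by rw [← pow_one x]; exact h x
  have : Subsingleton K := ⟨fun x y => by rw [h1 x, h1 y]⟩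
  intro S _
  infer_instance

theorem four (K : Type u) [Group K] (h : ∀ x : K, x ^ 4 = 1) : LocFin K :=
  lfn_of_finset (fun S => H15.Burn.fin4 h S)

theorem two (K : Type u) [Group K] (h : ∀ x : K, x ^ 2 = 1) : LocFin K :=
  four K (fun x => by rw [show (4 : ℕ) = 2 * 2 from rfl, pow_mul, h])

theorem three (K : Type u) [Group K] (h : ∀ x : K, x ^ 3 = 1) : LocFin K :=
  lfn_of_finset (fun S => H15.Burn.fin3 h S)

theorem six (K : Type u) [Group K] (h : ∀ x : K, x ^ 6 = 1) : LocFin K := by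
  intro S hS
  refine H848.PS.lf6 _ (fg_closure hS) (pow_closure h S)

theorem good {m : ℕ} (hm : m = 1 ∨ m = 2 ∨ m = 3 ∨ m = 4 ∨ m = 6 ∨
    ∀ (K : Type u) [Group K], (∀ x : K, x ^ m = 1) → LocFin K) :
    ∀ (K : Type u) [Group K], (∀ x : K, x ^ m = 1) → LocFin K := by
  rcases hm with rfl | rfl | rfl | rfl | rfl | hm
  · exact one
  · exact two
  · exact three
  · exact four
  · exact six
  · exact hm

/-- iterated Engel laws -/
theorem laws (hν : Odd ν) {m : ℕ}
    (hm : ∀ (K : Type u) [Group K], (∀ x : K, x ^ m = 1) → LocFin K) (n : ℕ)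
    (h : ∀ x : G, x ^ ν = 1)
    (hl : ∀ (x : G) (l : List G), l.length = n → l.foldl (fun a y => eng y a) (x ^ m) = 1) :
    LocFin G := by
  haveI : Fact (Odd ν) := ⟨hν⟩
  refine lfn_of_rad (ν := ν) (m := m) ?_ hm
  intro x
  by_contra hx
  obtain ⟨f, h0, hf⟩ := exists_chain hx
  have key : ∀ i : ℕ, ∃ l : List G, l.length = i ∧ f i = l.foldl (fun a y => eng y a) (x ^ m) := by
    intro i
    induction i with
    | zero => exact ⟨[], rfl, h0⟩
    | succ i ih =>
      obtain ⟨l, h1, h2⟩ := ih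
      obtain ⟨-, g, -, h3⟩ := chain_engel h hf i
      refine ⟨l ++ [g], by rw [List.length_append, h1]; rfl, ?_⟩
      rw [List.foldl_append, List.foldl_cons, List.foldl_nil, ← h2]
      exact h3
  obtain ⟨l, h1, h2⟩ := key n
  exact (hf n).1 (h2.trans (hl x l h1))

end

/-- **Theorem.** -/
theorem result :
    -- (1) an element which starts no infinite chain
    (∀ (G : Type u) [Group G] (a : G), (¬ ∃ f : ℕ → G, f 0 = a ∧ Chain f) →
      ∀ S : Set G, S.Finite → S ⊆ Subgroup.normalClosure {a} →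
        Finite (Subgroup.closure S) ∧ Group.IsSolvable (Subgroup.closure S)) ∧
    -- (2) finitely generated groups
    (∀ (G : Type u) [Group G], Group.FG G →
      ((Finite G ∧ Group.IsSolvable G) ↔ ¬ ∃ f : ℕ → G, Chain f)) ∧
    -- (3) all exponents: membership in `𝓛`
    (∀ n : ℕ, (∀ (G : Type u) [Group G], (∀ x : G, x ^ n = 1) → LocFin G) ↔
      ∀ (G : Type u) [Group G], Group.FG G → (∀ x : G, x ^ n = 1) → Infinite G →
        ∃ a : G, a ≠ 1 ∧ ¬ ∃ f : ℕ → G, f 0 = a ∧ Chain f) ∧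
    (∀ n : ℕ,
      ((∀ (G : Type u) [Group G], (∀ x : G, x ^ n = 1) → LocFinSol G) ↔
        ∀ (G : Type u) [Group G], Group.FG G → (∀ x : G, x ^ n = 1) →
          ¬ ∃ f : ℕ → G, Chain f) ∧
      ((∀ (G : Type u) [Group G], (∀ x : G, x ^ n = 1) → LocFinSol G) ↔
        ∀ (G : Type u) [Group G], Group.FG G → (∀ x : G, x ^ n = 1) → Nontrivial G →
          ∃ a : G, a ≠ 1 ∧ ¬ ∃ f : ℕ → G, f 0 = a ∧ Chain f)) ∧
    -- exponents with at most two prime divisors
    (∀ n : ℕ, n ≠ 0 → n.primeFactors.card ≤ 2 →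
      ((∀ (G : Type u) [Group G], (∀ x : G, x ^ n = 1) → LocFin G) ↔
        ∀ (G : Type u) [Group G], Group.FG G → (∀ x : G, x ^ n = 1) →
          ¬ ∃ f : ℕ → G, Chain f) ∧
      ((∀ (G : Type u) [Group G], (∀ x : G, x ^ n = 1) → LocFin G) ↔
        ∀ (G : Type u) [Group G], Group.FG G → (∀ x : G, x ^ n = 1) → Nontrivial G →
          ∃ a : G, a ≠ 1 ∧ ¬ ∃ f : ℕ → G, f 0 = a ∧ Chain f)) ∧
    -- (4) groups in which no `m`-th power starts a chain
    (∀ m : ℕ, (m = 1 ∨ m = 2 ∨ m = 3 ∨ m = 4 ∨ m = 6 ∨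
        ∀ (K : Type u) [Group K], (∀ x : K, x ^ m = 1) → LocFin K) →
      ∀ (G : Type u) [Group G], (¬ ∃ (f : ℕ → G) (x : G), f 0 = x ^ m ∧ Chain f) → LocFin G) ∧
    -- (5) odd exponents and Engel chains
    (∀ ν : ℕ, Odd ν → ∀ (G : Type u) [Group G], Group.FG G → (∀ x : G, x ^ ν = 1) →
      ((Finite G ∧ Group.IsSolvable G) ↔ ¬ ∃ f : ℕ → G, EngelChain f)) ∧
    (∀ ν : ℕ, Odd ν → ((∀ (G : Type u) [Group G], (∀ x : G, x ^ ν = 1) → LocFin G) ↔
      ∀ (G : Type u) [Group G], Group.FG G → (∀ x : G, x ^ ν = 1) → Infinite G →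
        ∃ a : G, a ≠ 1 ∧ ¬ ∃ f : ℕ → G, f 0 = a ∧ EngelChain f)) ∧
    (∀ ν : ℕ, Odd ν → ν.primeFactors.card ≤ 2 →
      ((∀ (G : Type u) [Group G], (∀ x : G, x ^ ν = 1) → LocFin G) ↔
        ∀ (G : Type u) [Group G], Group.FG G → (∀ x : G, x ^ ν = 1) →
          ¬ ∃ f : ℕ → G, EngelChain f) ∧
      ((∀ (G : Type u) [Group G], (∀ x : G, x ^ ν = 1) → LocFin G) ↔
        ∀ (G : Type u) [Group G], Group.FG G → (∀ x : G, x ^ ν = 1) → Nontrivial G →
          ∃ a : G, a ≠ 1 ∧ ¬ ∃ f : ℕ → G, f 0 = a ∧ EngelChain f)) ∧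
    -- (6) the laws `[y_n, w, w, w] = 1`, `w = [y_(n-1), v, v, v]`, …, `u = [y_1, x ^ m, x ^ m, x ^ m]`
    (∀ ν m n : ℕ, Odd ν → (m = 1 ∨ m = 2 ∨ m = 3 ∨ m = 4 ∨ m = 6 ∨
        ∀ (K : Type u) [Group K], (∀ x : K, x ^ m = 1) → LocFin K) →
      ∀ (G : Type u) [Group G], (∀ x : G, x ^ ν = 1) →
      (∀ (x : G) (l : List G), l.length = n → l.foldl (fun a y => eng y a) (x ^ m) = 1) →
      LocFin G) ∧
    -- (7) subgroups generated by an `m`-th power and `d` elements, of class at most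
    -- `(3 ^ (d + 1) - 3) / 2`
    (∀ ν m d : ℕ, Odd ν → (m = 1 ∨ m = 2 ∨ m = 3 ∨ m = 4 ∨ m = 6 ∨
        ∀ (K : Type u) [Group K], (∀ x : K, x ^ m = 1) → LocFin K) →
      ∀ (G : Type u) [Group G], (∀ x : G, x ^ ν = 1) →
      (∀ (x : G) (y : Fin d → G),
        (Subgroup.closure (insert (x ^ m) (Set.range y))).lowerCentralSeries
          ((3 ^ (d + 1) - 3) / 2) = ⊥) →
      LocFin G) ∧
    -- (8) the exponents `5`, `10`, `12`, `15` and `20`
    (∀ n d : ℕ, (n = 5 ∧ d = 3) ∨ ((n = 10 ∨ n = 12 ∨ n = 15 ∨ n = 20) ∧ d = 2) →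
      ((∀ (G : Type u) [Group G], (∀ x : G, x ^ n = 1) → LocFin G) ↔
        ∀ (G : Type u) [Group G], Gen d G → (∀ x : G, x ^ n = 1) → Nontrivial G →
          ∃ a : G, a ≠ 1 ∧ ¬ ∃ f : ℕ → G, f 0 = a ∧ Chain f) ∧
      (Odd n → ((∀ (G : Type u) [Group G], (∀ x : G, x ^ n = 1) → LocFin G) ↔
        ∀ (G : Type u) [Group G], Gen d G → (∀ x : G, x ^ n = 1) → Nontrivial G →
          ∃ a : G, a ≠ 1 ∧ ¬ ∃ f : ℕ → G, f 0 = a ∧ EngelChain f))) := by
  have A3 : ∀ n : ℕ,
      (∀ (G : Type u) [Group G], Group.FG G → (∀ x : G, x ^ n = 1) → Nontrivial G →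
        ∃ a : G, a ≠ 1 ∧ ¬ ∃ f : ℕ → G, f 0 = a ∧ Chain f) →
      ∀ (G : Type u) [Group G], (∀ x : G, x ^ n = 1) → LocFinSol G := by
    intro n H G _ h S hS
    exact fs_of_fg (fg_closure hS) (ls_of_elt H (fg_closure hS) (pow_closure h S))
  have A4 : ∀ n : ℕ, (∀ (G : Type u) [Group G], (∀ x : G, x ^ n = 1) → LocFinSol G) →
      ∀ (G : Type u) [Group G], Group.FG G → (∀ x : G, x ^ n = 1) → ¬ ∃ f : ℕ → G, Chain f := by
    intro n H G _ hG h
    rw [← crit hG]
    have h1 : LS G := by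
      refine ⟨fun S hS => (H G h S hS).1, ?_⟩
      intro K hK
      have := (H G h (K : Set G) (Set.toFinite _)).2
      rwa [Subgroup.closure_eq] at this
    exact fs_of_fg hG h1
  have A5 : ∀ n : ℕ, (∀ (G : Type u) [Group G], Group.FG G → (∀ x : G, x ^ n = 1) →
      ¬ ∃ f : ℕ → G, Chain f) → (∀ (G : Type u) [Group G], Group.FG G → (∀ x : G, x ^ n = 1) →
        Nontrivial G → ∃ a : G, a ≠ 1 ∧ ¬ ∃ f : ℕ → G, f 0 = a ∧ Chain f) := by
    intro n H G _ hG h hn
    obtain ⟨a, ha⟩ := exists_ne (1 : G)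
    exact ⟨a, ha, fun ⟨f, _, hf⟩ => H G hG h ⟨f, hf⟩⟩
  have C3 : ∀ n : ℕ, n ≠ 0 → n.primeFactors.card ≤ 2 →
      (∀ (G : Type u) [Group G], (∀ x : G, x ^ n = 1) → LocFin G) →
        ∀ (G : Type u) [Group G], Group.FG G → (∀ x : G, x ^ n = 1) → Nontrivial G →
          ∃ a : G, a ≠ 1 ∧ ¬ ∃ f : ℕ → G, f 0 = a ∧ Chain f := by
    intro n hn0 hn H
    apply A5
    apply A4
    intro G _ h S hS
    haveI := H G h S hS
    exact ⟨inferInstance, burnside hn0 hn (pow_closure h S)⟩
  have C5 : ∀ ν : ℕ, Odd ν → ν.primeFactors.card ≤ 2 →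
      (∀ (G : Type u) [Group G], (∀ x : G, x ^ ν = 1) → LocFin G) →
        ∀ (G : Type u) [Group G], Group.FG G → (∀ x : G, x ^ ν = 1) → Nontrivial G →
          ∃ a : G, a ≠ 1 ∧ ¬ ∃ f : ℕ → G, f 0 = a ∧ EngelChain f := by
    intro ν hν hn H G _ hG h hnt
    haveI : Finite G := fin_of_fg hG (H G h)
    have hn0 : ν ≠ 0 := by
      rintro rfl
      exact absurd hν (by decide)
    have h1 := (crit_odd hν hG h).1 ⟨inferInstance, burnside hn0 hn h⟩
    obtain ⟨a, ha⟩ := exists_ne (1 : G)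
    exact ⟨a, ha, fun ⟨f, _, hf⟩ => h1 ⟨f, hf⟩⟩
  refine ⟨?_, ?_, ?_, ?_, ?_, ?_, ?_, ?_, ?_, ?_, ?_, ?_⟩
  · intro G _ a ha S hS hSa
    have h1 : a ∈ sr G := by
      by_contra h
      obtain ⟨f, h0, hf⟩ := exists_mc h
      exact ha ⟨f, h0, hf⟩
    have h2 : Subgroup.normalClosure {a} ≤ sr G :=
      Subgroup.normalClosure_le_normal (Set.singleton_subset_iff.2 h1)
    have h3 : Finite (Subgroup.closure S) := (sr_ls G).1.fin hS (hSa.trans h2)
    exact ⟨h3, (sr_ls G).2.of_le h3 ((Subgroup.closure_le _).2 (hSa.trans h2))⟩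
  · intro G _ hG
    exact crit hG
  · intro n
    constructor
    · intro H G _ hG h hi
      have := fin_of_fg hG (H G h)
      exact (not_finite G).elim
    · intro H G _ h S hS
      exact finite_of_elt H (fg_closure hS) (pow_closure h S)
  · intro n
    exact ⟨⟨A4 n, fun H => A3 n (A5 n H)⟩, ⟨fun H => A5 n (A4 n H), A3 n⟩⟩
  · intro n hn0 hn
    have B : (∀ (G : Type u) [Group G], (∀ x : G, x ^ n = 1) → LocFin G) →
        ∀ (G : Type u) [Group G], (∀ x : G, x ^ n = 1) → LocFinSol G := by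
      intro H G _ h S hS
      haveI := H G h S hS
      exact ⟨inferInstance, burnside hn0 hn (pow_closure h S)⟩
    exact ⟨⟨fun H => A4 n (B H), fun H G _ h S hS => (A3 n (A5 n H) G h S hS).1⟩,
      ⟨fun H => A5 n (A4 n (B H)), fun H G _ h S hS => (A3 n H G h S hS).1⟩⟩
  · intro m hm G _ hc
    refine lfn_of_sr (m := m) ?_ (good hm)
    intro x
    by_contra hx
    obtain ⟨f, h0, hf⟩ := exists_mc hx
    exact hc ⟨f, x, h0, hf⟩
  · intro ν hν G _ hG h
    exact crit_odd hν hG h
  · intro ν hν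
    constructor
    · intro H G _ hG h hi
      have := fin_of_fg hG (H G h)
      exact (not_finite G).elim
    · intro H G _ h S hS
      exact finite_of_elt_odd hν H (fg_closure hS) (pow_closure h S)
  · intro ν hν hn
    have hn0 : ν ≠ 0 := by
      rintro rfl
      exact absurd hν (by decide)
    have B : (∀ (G : Type u) [Group G], (∀ x : G, x ^ ν = 1) → LocFin G) →
        ∀ (G : Type u) [Group G], Group.FG G → (∀ x : G, x ^ ν = 1) →
          ¬ ∃ f : ℕ → G, EngelChain f := by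
      intro H G _ hG h
      haveI : Finite G := fin_of_fg hG (H G h)
      exact (crit_odd hν hG h).1 ⟨inferInstance, burnside hn0 hn h⟩
    refine ⟨⟨B, ?_⟩, ⟨?_, ?_⟩⟩
    · intro H G _ h S hS
      exact ((crit_odd hν (fg_closure hS) (pow_closure h S)).2
        (H _ (fg_closure hS) (pow_closure h S))).1
    · intro H G _ hG h hnt
      obtain ⟨a, ha⟩ := exists_ne (1 : G)
      exact ⟨a, ha, fun ⟨f, _, hf⟩ => B H G hG h ⟨f, hf⟩⟩
    · intro H G _ h S hS
      exact lf_of_elt hν H (fg_closure hS) (pow_closure h S)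
  · intro ν m n hν hm G _ h hl
    exact laws hν (good hm) n h hl
  · intro ν m d hν hm G _ h hcl
    exact laws hν (good hm) d h (fun x l hl => foldl_one' (x ^ m) (hcl x) l hl)
  · intro n d hnd
    have hn0 : n ≠ 0 := by omega
    have hn : n.primeFactors.card ≤ 2 := by
      rcases hnd with ⟨rfl, -⟩ | ⟨rfl | rfl | rfl | rfl, -⟩
      · exact card_pq (p := 5) (q := 2) (a := 1) (b := 0) (by norm_num) (by norm_num)
      · exact card_pq (p := 5) (q := 2) (a := 1) (b := 1) (by norm_num) (by norm_num)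
      · exact card_pq (p := 3) (q := 2) (a := 1) (b := 2) (by norm_num) (by norm_num)
      · exact card_pq (p := 5) (q := 3) (a := 1) (b := 1) (by norm_num) (by norm_num)
      · exact card_pq (p := 5) (q := 2) (a := 1) (b := 2) (by norm_num) (by norm_num)
    constructor
    · constructor
      · intro H G _ hG
        exact C3 n hn0 hn H G hG.fg
      · intro H
        exact small_exp hnd (bb_finite (finite_of_elt_d H (bb_gen d n) (bb_pow d n)))
    · intro hodd
      constructor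
      · intro H G _ hG
        exact C5 n hodd hn H G hG.fg
      · intro H
        exact small_exp hnd (bb_finite (finite_of_elt_d_odd hodd H (bb_gen d n) (bb_pow d n)))

end Pool.Agent.Results.MP_544bd1_al.EngelChains
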