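import Mathlib
import Pool.Agent.H678.Inv.R
import Pool.Agent.H678.Inv.Y
import Pool.Graph.R_seed8.H15R2.Burn

/-!
# `MP_544bd1_al`: elements of order two, the locally finite `2`-radical, chains

* (1) If `(x y) ^ 4 = 1` for all `x`, `y` with square one, then for each `a` with square one the
  conjugates `x a x`, `x ^ 2 = 1`, generate a locally finite `2`-group.

* (2) In an arbitrary group, if `a` is not in the locally finite `2`-radical, then one of the elements
  `a ^ 2`, `(a a ^ g) ^ 4`, `[[a, a ^ g], [a, a ^ h]]` is not in the radical.  So `a` starts an infinite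
  chain.  This gives the criteria (3), (4), (5).

Idea of the proof.  Let `X` be a set of elements with square one, closed under conjugation by its
elements, such that `x ^ y` and `x ^ z` commute for all `x`, `y`, `z` in `X` (equivalently,
`(x y) ^ 4 = 1` and `[x, y]`, `[x, z]` commute).  Then `X` generates a locally finite `2`-group.  (For one
conjugacy class this is a theorem of Hadjievangelou and Traustason on strongly left `3`-Engel elements.)
For `a`, `u`, `v`, `w` in `X` one shows `[a, a ^ (u v w)] = [a, a ^ (v u w)]`, and that this element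
commutes with `w`.  This implies that `[a, b]` commutes with `[a, b] ^ (u v)` for `a`, `b`, `u`, `v` in `X`,
and then that `X ∪ [X, X]` has the same property as `X`.  So the closure of `X` under commutators is a
sandwich system.  The elements of a sandwich system act quadratically on its additive functions
(`f (s ^ t) = f s + f [s, t]`), so finitely generated subgroups act nilpotently by the theorem of
Kostrikin and Zelmanov, and the functions `s ↦ [s, y]` are additive.

For (1) one shows that under the condition of (1) the elements `[a, x]`, `a [a, x]`, `x ^ 2 = 1`, form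
such a set `X`.  For (2) one considers the conjugacy class of `a` modulo the radical.
-/

set_option autoImplicit false

namespace Pool.Agent.Results.MP_544bd1_al.InvolutionChains

open Pool.Agent.H678
open Pool.Agent.H678.Inv (k Sy)
open Pool.Agent.W5h59.Bu (LFn LF2 rad rad_lf)

universe u

/-- locally finite groups: every finite subset generates a finite subgroup -/
def LocFin (G : Type u) [Group G] : Prop := ∀ S : Set G, S.Finite → Finite (Subgroup.closure S)

/-- the subgroup `H` is a locally finite `2`-group -/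
def LocFin2 {G : Type u} [Group G] (H : Subgroup G) : Prop :=
  ∀ S : Set G, S.Finite → S ⊆ H → Finite (Subgroup.closure S) ∧
    ∀ x ∈ Subgroup.closure S, ∃ n : ℕ, x ^ 2 ^ n = 1

/-- one step of a chain: `a ^ 2`, or `(a a ^ g) ^ 4`, or `((a a ^ g) ^ 2 (a a ^ h) ^ 2) ^ 2`, with `g` and
`h` in the normal closure of `a`.  (If `a` has order two and `(a a ^ g) ^ 4 = (a a ^ h) ^ 4 = 1` then
the last element is `[[a, a ^ g], [a, a ^ h]]`.) -/
def Step {G : Type u} [Group G] (a b : G) : Prop :=
  b = a ^ 2 ∨
  (∃ g ∈ Subgroup.normalClosure {a}, b = (a * (g⁻¹ * a * g)) ^ 4) ∨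
  ∃ g ∈ Subgroup.normalClosure {a}, ∃ h ∈ Subgroup.normalClosure {a},
    b = ((a * (g⁻¹ * a * g)) ^ 2 * (a * (h⁻¹ * a * h)) ^ 2) ^ 2

/-- infinite chains of nontrivial elements -/
def Chain {G : Type u} [Group G] (f : ℕ → G) : Prop := ∀ n, f n ≠ 1 ∧ Step (f n) (f (n + 1))

variable {G : Type u} [Group G]

theorem lf2_of {H : Subgroup G} (h : LF2 H) : LocFin2 H := by
  intro S hS hSH
  refine ⟨h.1.fin hS hSH, ?_⟩
  intro x hx
  have hx' : x ∈ H := (Subgroup.closure_le H).2 hSH hx
  obtain ⟨n, hn⟩ := h.2 ⟨x, hx'⟩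
  refine ⟨n, ?_⟩
  have := congrArg Subtype.val hn
  simpa using this

theorem fin_of_fg (hG : Group.FG G) (h : LocFin G) : Finite G := by
  obtain ⟨S, hS⟩ := Group.fg_def.1 hG
  have h1 := h (S : Set G) S.finite_toSet
  rw [hS] at h1
  exact Finite.of_equiv _ (Subgroup.topEquiv : (⊤ : Subgroup G) ≃* G).toEquiv

theorem lfn_of_finset
    (h : ∀ S : Finset G, ((Subgroup.closure (S : Set G) : Subgroup G) : Set G).Finite) :
    LocFin G := by
  intro S hS
  have := h hS.toFinset
  rw [hS.coe_toFinset] at this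
  exact this.to_subtype

theorem three (K : Type u) [Group K] (h : ∀ x : K, x ^ 3 = 1) : LocFin K :=
  lfn_of_finset (fun S => H15.Burn.fin3 h S)

theorem four (K : Type u) [Group K] (h : ∀ x : K, x ^ 4 = 1) : LocFin K :=
  lfn_of_finset (fun S => H15.Burn.fin4 h S)

/-- finite `2`-groups have no chains -/
theorem fin_no_chain [Finite G] {r : ℕ} (h : ∀ x : G, x ^ 2 ^ r = 1) (f : ℕ → G) : ¬ Chain f := by
  have hp : IsPGroup 2 G := fun x => ⟨r, h x⟩
  have : Fact (Nat.Prime 2) := ⟨Nat.prime_two⟩
  have hn : Group.IsNilpotent G := hp.isNilpotent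
  obtain ⟨c, hc⟩ := Subgroup.nilpotent_iff_lowerCentralSeries.1 hn
  exact Inv.no_chain h hc f

/-- finitely generated groups of exponent `2 ^ r` -/
theorem crit {r : ℕ} (hG : Group.FG G) (h : ∀ x : G, x ^ 2 ^ r = 1) :
    Finite G ↔ ¬ ∃ f : ℕ → G, Chain f := by
  constructor
  · rintro hf ⟨f, hc⟩
    exact fin_no_chain h f hc
  · intro hc
    exact fin_of_fg hG (Inv.lf2_of_no_chain (fun f hf => hc ⟨f, hf⟩)).1

/-- from `m` to `2 m` -/
theorem step {m : ℕ} (hm : m = 3 ∨ m = 4 ∨ ∀ (K : Type u) [Group K], (∀ x : K, x ^ m = 1) → LocFin K)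
    (h : ∀ (f : ℕ → G) (x : G), f 0 = x ^ m → ¬ Chain f) : LocFin G := by
  have hm' : ∀ (K : Type u) [Group K], (∀ x : K, x ^ m = 1) → LocFin K := by
    rcases hm with rfl | rfl | hm
    · exact three
    · exact four
    · exact hm
  refine Inv.lfn_of_rad (m := m) ?_ hm'
  intro x
  by_contra hx
  obtain ⟨f, h0, hf⟩ := Inv.exists_chain hx
  exact h f x h0 hf

/-- **Theorem.** -/
theorem result :
    -- (1) groups in which the product of any two elements of order two has order dividing four
    (∀ (G : Type u) [Group G], (∀ x y : G, x ^ 2 = 1 → y ^ 2 = 1 → (x * y) ^ 4 = 1) →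
      ∀ a : G, a ^ 2 = 1 →
        LocFin2 (Subgroup.closure {y : G | ∃ x : G, x ^ 2 = 1 ∧ y = x * a * x})) ∧
    -- (2) elements which start no infinite chain have a locally finite normal closure
    (∀ (G : Type u) [Group G] (a : G), (¬ ∃ f : ℕ → G, f 0 = a ∧ Chain f) →
      LocFin2 (Subgroup.normalClosure {a})) ∧
    -- (3) a criterion for the exponents `2 ^ r`
    (∀ (r : ℕ) (G : Type u) [Group G], Group.FG G → (∀ x : G, x ^ 2 ^ r = 1) →
      (Finite G ↔ ¬ ∃ f : ℕ → G, Chain f)) ∧
    (∀ r : ℕ, (∀ (G : Type u) [Group G], (∀ x : G, x ^ 2 ^ r = 1) → LocFin G) ↔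
      ∀ (G : Type u) [Group G], Group.FG G → (∀ x : G, x ^ 2 ^ r = 1) →
        ¬ ∃ f : ℕ → G, Chain f) ∧
    -- (4) from exponent `m` to exponent `2 m`, unconditional for the exponent eight
    (∀ m : ℕ, (m = 3 ∨ m = 4 ∨
        ∀ (K : Type u) [Group K], (∀ x : K, x ^ m = 1) → LocFin K) →
      ∀ (G : Type u) [Group G], (∀ x : G, x ^ (2 * m) = 1) →
        ((∀ x a : G, a = x ^ m →
            ∀ g ∈ Subgroup.normalClosure {a}, ∀ h ∈ Subgroup.normalClosure {a},
              (a * (g⁻¹ * a * g)) ^ 4 = 1 ∧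
              ((a * (g⁻¹ * a * g)) ^ 2 * (a * (h⁻¹ * a * h)) ^ 2) ^ 2 = 1) ∨
          ¬ ∃ (f : ℕ → G) (x : G), f 0 = x ^ m ∧ Chain f) → LocFin G) ∧
    -- (5) the same with chains of length `n`, i.e. with a set of laws
    (∀ m : ℕ, (m = 3 ∨ m = 4 ∨
        ∀ (K : Type u) [Group K], (∀ x : K, x ^ m = 1) → LocFin K) →
      ∀ (n : ℕ) (G : Type u) [Group G], (∀ x : G, x ^ (2 * m) = 1) →
        (∀ (f : ℕ → G) (x : G), f 0 = x ^ m → (∀ i < n, Step (f i) (f (i + 1))) → f n = 1) →
        LocFin G) := by
  refine ⟨?_, ?_, ?_, ?_, ?_, ?_⟩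
  · intro G _ hp a ha
    apply lf2_of
    have H : Inv.E2 G := by
      intro x y h1 h2
      have h := hp x y (by rw [sq]; exact h1) (by rw [sq]; exact h2)
      rw [show (4 : ℕ) = 2 * 2 from rfl, pow_mul, sq, sq] at h
      exact h
    have hD := Sy.all H
    rw [sq] at ha
    refine LF2.mono ?_ (Inv.Xa.lf hD (show a ∈ {x : G | x * x = 1} from ha))
    apply Subgroup.closure_mono
    rintro _ ⟨x, hx, rfl⟩
    rw [sq] at hx
    refine ⟨a, x, Or.inr rfl, hx, ?_⟩
    simp only [k, mul_assoc, Inv.cc ha]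
  · intro G _ a hc
    have h1 : a ∈ rad G := by
      by_contra h
      obtain ⟨f, h0, hf⟩ := Inv.exists_chain h
      exact hc ⟨f, h0, hf⟩
    have h2 : Subgroup.normalClosure {a} ≤ rad G :=
      Subgroup.normalClosure_le_normal (Set.singleton_subset_iff.2 h1)
    exact lf2_of (LF2.mono h2 (rad_lf G))
  · intro r G _ hG h
    exact crit hG h
  · intro r
    constructor
    · intro H G _ hG h
      exact (crit hG h).1 (fin_of_fg hG (H G h))
    · intro H G _ h S hS
      have h1 : ∀ x : Subgroup.closure S, x ^ 2 ^ r = 1 := by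
        rintro ⟨x, hx⟩
        exact Subtype.ext (h x)
      have h2 : Group.FG (Subgroup.closure S) := by
        rw [Group.fg_iff_subgroup_fg]
        exact (Subgroup.fg_iff _).2 ⟨S, rfl, hS⟩
      exact (crit h2 h1).2 (H _ h2 h1)
  · intro m hm G _ hG hc
    refine step hm ?_
    intro f x h0 hf
    rcases hc with hc | hc
    · rcases (hf 0).2 with h1 | ⟨g, hg, h1⟩ | ⟨g, hg, h, hh, h1⟩
      · apply (hf 1).1
        show f (0 + 1) = 1
        rw [h1, h0, ← pow_mul, mul_comm]
        exact hG x
      · apply (hf 1).1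
        show f (0 + 1) = 1
        rw [h1]
        exact (hc x (f 0) h0 g hg g hg).1
      · apply (hf 1).1
        show f (0 + 1) = 1
        rw [h1]
        exact (hc x (f 0) h0 g hg h hh).2
    · exact hc ⟨f, x, h0, hf⟩
  · intro m hm n G _ hG hl
    refine step hm ?_
    intro f x h0 hf
    exact (hf n).1 (hl f x h0 (fun i _ => (hf i).2))

end Pool.Agent.Results.MP_544bd1_al.InvolutionChains
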