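import Mathlib
import Pool.Agent.H775.Six.General

/-!
# `MP_544bd1_al`: few elements of a normal set, and products of a bounded number of powers

Let `e` be `1`, `2`, `3`, `4` or `6`, and let `X` be a subset of an arbitrary group which is closed under
conjugation by its elements.  Let `s = 2` for `e ≤ 3`, `s = 6` for `e = 4` and `s = 4` for `e = 6`.

* (1) If any `s` elements of `X` generate a group of exponent dividing `e`, then `X` generates a locally
  finite group, which is a `2`-group if `e` divides `4` and a `3`-group if `e = 3`.  (3) The order of the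
  group generated by `r` elements of `X` is bounded in terms of `r`.
* (2) If `x ^ 2 = 1` on `X` and in the groups generated by six elements of `X` the product of any three
  elements with square one has order dividing four, then `X` generates a locally finite `2`-group.
* (4) There is an absolute constant `K` such that it suffices that the products of at most `K` elements of
  `X` have order dividing `e`.  So from any set `W` of words such that the groups with the laws `W` are
  locally finite, one obtains new words with this property: the `e`-th powers of the products of at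
  most `K` values of words of `W`.  For instance the law `(x_1 ^ m ⋯ x_K ^ m) ^ e = 1`, which holds in
  all extensions of groups of exponent `e` by groups of exponent `m`, implies local finiteness
  for all `m ∈ 𝓛`, with one `K` for all `m`.

Idea of the proof.  `e = 4`, `x ^ 2 = 1` on `X`: let `a, b ∈ X` and `t = [a, b] = (a b) ^ 2`.  In the
group generated by `a, b, a ^ g, b ^ g, a ^ h, b ^ h` the involution `t` is strong, i.e. `[t, u]` commutes
with `[t, v]` for all involutions `u, v` (an identity of the library for groups in which the product of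
three involutions has order dividing four).  So `(t t ^ g) ^ 4 = 1` and `[t, t ^ g]` commutes with
`[t, t ^ h]` for all `g, h`.  By the theorem of Hadjievangelou and Traustason (`Pool.Agent.H678.Inv`),
`t` is in the locally finite `2`-radical, and modulo the radical the elements of `X` commute.  In general
one considers first the squares of the elements of `X`.

`e = 6`: suppose that the locally finite radical is trivial.  For `x, y ∈ X` let `t = (x ^ 3 y ^ 3) ^ 2`.
In the group generated by `x, y, x ^ g, y ^ g`, of exponent six, `t` and `t ^ g` are in a normal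
`3`-subgroup, so `[t, g] ^ 3 = 1` for all `g`, and `t = 1` by the theorem on left `3`-Engel elements of
order three (`Pool.Agent.H325`).  So the cubes commute with each other and `x ^ 3 = 1`.  Now
`(x⁻¹ y) ^ 3` commutes with its conjugates, so that `(x⁻¹ y) ^ 3 = 1`, `[x, g] ^ 3 = 1`, and `x = 1`.

(3) follows by a direct product, (4) since the groups of exponent `e` generated by `s` elements are
finite, hence finitely presented.
-/

set_option autoImplicit false

namespace Pool.Agent.Results.MP_544bd1_al.SixElements

open Pool.Agent.H775.Six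
open Pool.Agent.W5h59.Bu (LFn LF2)
open scoped commutatorElement

universe u

/-- locally finite groups: every finite subset generates a finite subgroup -/
def LocFin (G : Type u) [Group G] : Prop := ∀ S : Set G, S.Finite → Finite (Subgroup.closure S)

/-- `e` is one of the numbers `1, 2, 3, 4, 6` -/
def Known (e : ℕ) : Prop := e = 1 ∨ e = 2 ∨ e = 3 ∨ e = 4 ∨ e = 6

/-- `m ∈ 𝓛` (for groups in the universe `u`) -/
def InL (m : ℕ) : Prop := ∀ (H : Type u) [Group H], (∀ x : H, x ^ m = 1) → LocFin H

/-- `X` is closed under conjugation by its elements -/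
def SelfConj {G : Type u} [Group G] (X : Set G) : Prop := ∀ x ∈ X, ∀ y ∈ X, y⁻¹ * x * y ∈ X

/-- the number of elements which is considered: six for `e = 4`, four for `e = 6`, two for `e ≤ 3` -/
def size (e : ℕ) : ℕ := if e = 4 then 6 else if e = 6 then 4 else 2

/-- any `size e` elements of `X` generate a group of exponent dividing `e` -/
def FewExp {G : Type u} [Group G] (X : Set G) (e : ℕ) : Prop :=
  ∀ x : Fin (size e) → G, (∀ i, x i ∈ X) → ∀ g ∈ Subgroup.closure (Set.range x), g ^ e = 1

/-- `H` is locally finite, a `2`-group if `e` divides `4`, and a `3`-group if `e = 3` -/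
def LocFinP (e : ℕ) (H : Type u) [Group H] : Prop :=
  LocFin H ∧ (e ∣ 4 → IsPGroup 2 H) ∧ (e = 3 → IsPGroup 3 H)

/-- the products of at most `K` elements of `X` have order dividing `e` -/
def ShortProducts {G : Type u} [Group G] (X : Set G) (K e : ℕ) : Prop :=
  ∀ l : List G, (∀ x ∈ l, x ∈ X) → l.length ≤ K → l.prod ^ e = 1

/-- the values in `G` of the words of `W` -/
def values (W : Set (FreeGroup ℕ)) (G : Type u) [Group G] : Set G :=
  {g | ∃ w ∈ W, ∃ θ : FreeGroup ℕ →* G, g = θ w}

/-- all groups with the laws `w = 1`, `w ∈ W`, are locally finite -/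
def LawLF (W : Set (FreeGroup ℕ)) : Prop :=
  ∀ (H : Type u) [Group H], (∀ x ∈ values W H, x = 1) → LocFin H

/-- new words: the `e`-th powers of the products of at most `K` values of the words of `W`; for a list
`e₁, e₂, …, eₙ` this is done with `eₙ` first and with `e₁` last -/
def iter (K : ℕ) (W : Set (FreeGroup ℕ)) : List ℕ → Set (FreeGroup ℕ)
  | [] => W
  | e :: es => {v | ∃ l : List (FreeGroup ℕ), (∀ x ∈ l, x ∈ values (iter K W es) (FreeGroup ℕ)) ∧
      l.length ≤ K ∧ v = l.prod ^ e}

/-- the values of the derived words `δ_k`: all elements for `k = 0`, then the commutators `⁅a, b⁆` of two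
values of the preceding word -/
def derivedValues (G : Type u) [Group G] : ℕ → Set G
  | 0 => Set.univ
  | k + 1 => {g | ∃ a ∈ derivedValues G k, ∃ b ∈ derivedValues G k, g = ⁅a, b⁆}

theorem derived_eq (G : Type u) [Group G] (k : ℕ) : derivedValues G k = D G k := by
  induction k with
  | zero => rfl
  | succ k ih =>
    show {g | ∃ a ∈ derivedValues G k, ∃ b ∈ derivedValues G k, g = ⁅a, b⁆} =
      {g | ∃ a ∈ D G k, ∃ b ∈ D G k, g = ⁅a, b⁆}
    rw [ih]

theorem iter_eq (K : ℕ) (W : Set (FreeGroup ℕ)) (es : List ℕ) : iter K W es = iterE K W es := by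
  induction es with
  | nil => rfl
  | cons e es ih =>
    show {v | ∃ l : List (FreeGroup ℕ), (∀ x ∈ l, x ∈ values (iter K W es) (FreeGroup ℕ)) ∧
        l.length ≤ K ∧ v = l.prod ^ e} =
      {v | ∃ l : List (FreeGroup ℕ), (∀ x ∈ l, x ∈ values (iterE K W es) (FreeGroup ℕ)) ∧
        l.length ≤ K ∧ v = l.prod ^ e}
    rw [ih]

theorem good_m {m : ℕ} (h : Known m ∨ InL.{u} m) : InL.{u} m := by
  rcases h with h | h
  · exact fun H _ hx => Ok.lfn h H hx
  · exact h

theorem conj_class {G : Type u} [Group G] (a : G) :
    Subgroup.closure {x : G | ∃ g : G, x = g⁻¹ * a * g} = Subgroup.normalClosure {a} := by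
  show _ = Subgroup.closure _
  congr 1
  ext x
  rw [Group.mem_conjugatesOfSet_iff]
  constructor
  · rintro ⟨g, rfl⟩
    exact ⟨a, rfl, isConj_iff.2 ⟨g⁻¹, by group⟩⟩
  · rintro ⟨b, hb, hx⟩
    rw [Set.mem_singleton_iff] at hb
    subst hb
    obtain ⟨g, rfl⟩ := isConj_iff.1 hx
    exact ⟨g⁻¹, by group⟩

/-- **Theorem.** -/
theorem result :
    -- (1) any `size e` elements generate a group of exponent dividing `e`
    (∀ (G : Type u) [Group G] (e : ℕ), Known e →
      (∀ X : Set G, SelfConj X → FewExp X e → LocFinP e (Subgroup.closure X)) ∧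
      -- an element, any `size e` conjugates of which generate a group of exponent dividing `e`
      ∀ a : G, (∀ g : Fin (size e) → G,
          ∀ h ∈ Subgroup.closure (Set.range fun i => (g i)⁻¹ * a * g i), h ^ e = 1) →
        LocFinP e (Subgroup.normalClosure {a})) ∧
    -- (2) involutions
    (∀ (G : Type u) [Group G] (X : Set G), SelfConj X → (∀ x ∈ X, x ^ 2 = 1) →
      (∀ x : Fin 6 → G, (∀ i, x i ∈ X) → ∀ a ∈ Subgroup.closure (Set.range x),
        ∀ b ∈ Subgroup.closure (Set.range x), ∀ c ∈ Subgroup.closure (Set.range x),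
        a ^ 2 = 1 → b ^ 2 = 1 → c ^ 2 = 1 → (a * b * c) ^ 4 = 1) →
      LocFin (Subgroup.closure X) ∧ IsPGroup 2 (Subgroup.closure X)) ∧
    -- (3) bounds
    (∀ r : ℕ, ∃ N : ℕ, ∀ (G : Type u) [Group G] (e : ℕ), Known e → ∀ X : Set G, SelfConj X →
      FewExp X e → ∀ x : Fin r → G, (∀ i, x i ∈ X) →
        Finite (Subgroup.closure (Set.range x)) ∧ Nat.card (Subgroup.closure (Set.range x)) ≤ N) ∧
    -- (4) an absolute constant
    ∃ K : ℕ,
      -- (a) products of at most `K` elements
      (∀ (G : Type u) [Group G] (e : ℕ), Known e → ∀ X : Set G, SelfConj X → ShortProducts X K e →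
        LocFinP e (Subgroup.closure X)) ∧
      -- (b) the laws `(x_1 ^ m ⋯ x_K ^ m) ^ e = 1`
      (∀ m : ℕ, Known m ∨ InL.{u} m → ∀ e : ℕ, Known e → ∀ (G : Type u) [Group G],
        (∀ x : Fin K → G, (List.ofFn fun i => x i ^ m).prod ^ e = 1) → LocFin G) ∧
      -- (c) from sets of laws to new laws
      (∀ W : Set (FreeGroup ℕ), LawLF.{u} W → ∀ es : List ℕ, (∀ e ∈ es, Known e) →
        LawLF.{u} (iter K W es)) ∧
      -- (d) periodic groups, values of the derived words
      ∀ (G : Type u) [Group G], (∀ x : G, ∃ n : ℕ, 0 < n ∧ x ^ n = 1) → ∀ (k e : ℕ), Known e →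
        ShortProducts (derivedValues G k) K e → LocFin G := by
  refine ⟨?_, ?_, ?_, ?_⟩
  · intro G _ e he
    refine ⟨fun X hX h6 => ⟨selfE he hX h6, selfP he hX h6⟩, ?_⟩
    · intro a ha
      have hX : ∀ x ∈ {x : G | ∃ g : G, x = g⁻¹ * a * g}, ∀ y ∈ {x : G | ∃ g : G, x = g⁻¹ * a * g},
          y⁻¹ * x * y ∈ {x : G | ∃ g : G, x = g⁻¹ * a * g} := by
        rintro _ ⟨g, rfl⟩ _ ⟨h, rfl⟩
        exact ⟨g * (h⁻¹ * a * h), by group⟩
      have h6 : ∀ x : Fin (num e) → G, (∀ i, x i ∈ {x : G | ∃ g : G, x = g⁻¹ * a * g}) →
          Ex e (Subgroup.closure (Set.range x)) := by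
        intro x hx h hh
        choose g hg using hx
        have e1 : x = fun i => (g i)⁻¹ * a * g i := funext hg
        rw [e1] at hh
        exact ha g h hh
      have h := selfE he hX h6
      have h' := selfP he hX h6
      rw [conj_class] at h h'
      exact ⟨h, h'⟩
  · intro G _ X hX h2 h6
    have h := self2 hX h2 h6
    exact ⟨h.1, h.2⟩
  · intro r
    obtain ⟨N, hN⟩ := boundE.{u} r
    refine ⟨N, fun G _ e he X hX h6 x hx => ⟨?_, hN e he G X hX h6 x hx⟩⟩
    refine (selfE he hX h6).fin (Set.finite_range x) ?_
    rintro _ ⟨i, rfl⟩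
    exact Subgroup.subset_closure (hx i)
  · obtain ⟨K, hK⟩ := exists_good.{u}
    refine ⟨K, ?_, ?_, ?_, ?_⟩
    · intro G _ e he X hX h
      exact ⟨selfE he hX (six_of hK he h), selfP he hX (six_of hK he h)⟩
    · intro m hm e he G _ h
      exact powersE hK he m (good_m hm) h
    · intro W hW es hes
      have h := iterateE hK W hW es hes
      rw [iter_eq]
      exact h
    · intro G _ ht k e he h
      rw [derived_eq] at h
      refine derivedE hK he k (fun x => ?_) h
      obtain ⟨n, hn, hx⟩ := ht x
      exact isOfFinOrder_iff_pow_eq_one.2 ⟨n, hn, hx⟩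

end Pool.Agent.Results.MP_544bd1_al.SixElements
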